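import Pool.Agent.Helper68.SG2.GoalsE
import Pool.Agent.Helper70.SGE.GLOB

/-!
# Project SG, stage 2 (MP_a41896_nt), packet GLOBT: sum of the local estimates over all places
-/

set_option autoImplicit false

open MvPolynomial

namespace Pool.Agent.Helper46.SG2

open WeierstrassCurve Height Height.AdmissibleAbsValues
open Pool.Agent.Helper29.BL Pool.Agent.Helper92.Ru Pool.Agent.Helper42.SG
open Pool.Agent.Helper92.SGE Pool.Agent.Helper70.SGE

theorem t_GLOBT (hHTL : Pool.Agent.Helper92.SGE.HTL) : Pool.Agent.Helper68.SG2.GLOBT := by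
  intro K _ _ n M δ k0 Bt B' hBt hB'
  have hBt0 : 0 ≤ PS (fun v => Real.log (Bt v)) :=
    PS_nonneg hBt.fin fun v => Real.log_nonneg (hBt.one_le v)
  have hB'0 : 0 ≤ PS (fun v => Real.log (B' v)) :=
    PS_nonneg hB'.fin fun v => Real.log_nonneg (hB'.one_le v)
  have htw : (0 : ℝ) ≤ (totalWeight K : ℝ) := Nat.cast_nonneg _
  refine ⟨PS (fun v => Real.log (Bt v)) + PS (fun v => Real.log (B' v)) + totalWeight K,
    by positivity, ?_⟩
  intro e ξ ζ L L' hw σ _ ρ α dl A hδ hA hL hloc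
  -- the functions
  have hmax : ∀ h ∈ Finset.range (2 * n), FS (fun v : AbsoluteValue K ℝ =>
      Real.log (max (v (L h)) (v (L' h)))) ∧
      PS (fun v : AbsoluteValue K ℝ => Real.log (max (v (L h)) (v (L' h)))) =
        logHeight₁ (hw h) := by
    intro h hh
    obtain ⟨k1, k2, k3⟩ := hL h (Finset.mem_range.1 hh)
    exact hHTL K (L h) (L' h) (hw h) k1 k2 k3
  have hfmin : ∀ j, FS (fun v : AbsoluteValue K ℝ =>
      min (Real.posLog (v (ζ (2 * j)))) (Real.posLog (v (ζ (2 * j + 1))))) :=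
    fun j => (FS_posLog _).min (FS_posLog _)
  -- left side
  have f1 : FS (fun v : AbsoluteValue K ℝ => ∑ j ∈ Finset.range n, ((k0 : ℝ) * 4 ^ e j) *
      min (Real.posLog (v (ζ (2 * j)))) (Real.posLog (v (ζ (2 * j + 1))))) :=
    FS.sum _ fun j _ => (hfmin j).const_mul _
  have f0 : FS (fun v : AbsoluteValue K ℝ => Real.log (v dl)) := FS_log hδ
  -- right side
  have g1 : FS (fun v : AbsoluteValue K ℝ => Real.log (cst v (Real.exp A))) := FS_log_cst _
  have g2 : FS (fun v : AbsoluteValue K ℝ => ((sq n e : ℕ) : ℝ) * Real.log (Bt v)) :=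
    hBt.fin.const_mul _
  have g3 : ∀ h ∈ Finset.range (2 * n), FS (fun v : AbsoluteValue K ℝ =>
      (M : ℝ) * Real.log (max (v (L h)) (v (L' h))) +
        (4 : ℝ) ^ e (h / 2) * Real.log (Mv v (ξ h))) :=
    fun h hh => ((hmax h hh).1.const_mul _).add ((FS_log_Mv _).const_mul _)
  have g4 : FS (fun v : AbsoluteValue K ℝ =>
      (δ : ℝ) * (Real.log (Mv v (ξ (2 * n))) + Real.log (Mv v (ξ (2 * n + 1))))) :=
    ((FS_log_Mv _).add (FS_log_Mv _)).const_mul _
  have g5 : ∀ i ∈ (Finset.univ : Finset σ), FS (fun v : AbsoluteValue K ℝ =>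
      (α i : ℝ) * (Real.log (B' v) + 2 * Real.log (Mv v (ρ i)))) :=
    fun i _ => (hB'.fin.add ((FS_log_Mv _).const_mul _)).const_mul _
  have g3s := FS.sum _ g3
  have g5s := FS.sum _ g5
  have hmain : PS (fun v : AbsoluteValue K ℝ => Real.log (v dl) +
      ∑ j ∈ Finset.range n, ((k0 : ℝ) * 4 ^ e j) *
        min (Real.posLog (v (ζ (2 * j)))) (Real.posLog (v (ζ (2 * j + 1))))) ≤
      PS (fun v : AbsoluteValue K ℝ => (((Real.log (cst v (Real.exp A)) +
        ((sq n e : ℕ) : ℝ) * Real.log (Bt v)) +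
        ∑ h ∈ Finset.range (2 * n), ((M : ℝ) * Real.log (max (v (L h)) (v (L' h))) +
          (4 : ℝ) ^ e (h / 2) * Real.log (Mv v (ξ h)))) +
        (δ : ℝ) * (Real.log (Mv v (ξ (2 * n))) + Real.log (Mv v (ξ (2 * n + 1))))) +
        ∑ i : σ, (α i : ℝ) *
          (Real.log (B' v) + 2 * Real.log (Mv v (ρ i)))) := by
    refine PS_mono' (f0.add f1) ((((g1.add g2).add g3s).add g4).add g5s) ?_
    intro v hv
    have hvδ : 0 < v dl := v.pos hδ
    have hcst : 0 < cst v (Real.exp A) := cst_pos v (Real.one_le_exp hA)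
    have hB1 : 0 < Bt v := lt_of_lt_of_le one_pos (hBt.one_le v)
    have hB2 : 0 < B' v := lt_of_lt_of_le one_pos (hB'.one_le v)
    have hmx : ∀ h ∈ Finset.range (2 * n), 0 < max (v (L h)) (v (L' h)) := by
      intro h hh
      rcases (hL h (Finset.mem_range.1 hh)).1 with k | k
      · exact lt_max_of_lt_left (v.pos k)
      · exact lt_max_of_lt_right (v.pos k)
    have hM : ∀ a : K, 0 < Mv v a := Mv_pos v
    have p1 : ∀ h ∈ Finset.range (2 * n),
        0 < (max (v (L h)) (v (L' h))) ^ M * Mv v (ξ h) ^ (4 ^ e (h / 2)) :=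
      fun h hh => mul_pos (pow_pos (hmx h hh) _) (pow_pos (hM _) _)
    have p2 : ∀ j ∈ Finset.range n,
        0 < (min (Mv v (ζ (2 * j))) (Mv v (ζ (2 * j + 1)))) ^ (k0 * 4 ^ e j) :=
      fun j _ => pow_pos (lt_min (hM _) (hM _)) _
    have p4 : ∀ i ∈ (Finset.univ : Finset σ),
        0 < (B' v * Mv v (ρ i) ^ 2) ^ (α i) :=
      fun i _ => pow_pos (mul_pos hB2 (pow_pos (hM _) _)) _
    have h1 := Real.log_le_log hvδ (hloc v hv)
    rw [logR hcst (pow_pos hB1 _) (Finset.prod_pos p1) (Finset.prod_pos p2)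
      (pow_pos (mul_pos (hM _) (hM _)) _) (Finset.prod_pos p4),
      Real.log_prod (fun h hh => (p1 h hh).ne'), Real.log_prod (fun j hj => (p2 j hj).ne'),
      Real.log_prod (fun i hi => (p4 i hi).ne'), Real.log_pow, Real.log_pow,
      Real.log_mul (hM _).ne' (hM _).ne'] at h1
    have e1 : ∑ h ∈ Finset.range (2 * n),
        Real.log ((max (v (L h)) (v (L' h))) ^ M * Mv v (ξ h) ^ (4 ^ e (h / 2)))
        = ∑ h ∈ Finset.range (2 * n), ((M : ℝ) * Real.log (max (v (L h)) (v (L' h))) +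
          (4 : ℝ) ^ e (h / 2) * Real.log (Mv v (ξ h))) := by
      refine Finset.sum_congr rfl fun h hh => ?_
      rw [Real.log_mul (pow_pos (hmx h hh) _).ne' (pow_pos (hM _) _).ne', Real.log_pow,
        Real.log_pow]
      push_cast
      ring
    have e2 : ∑ j ∈ Finset.range n,
        Real.log ((min (Mv v (ζ (2 * j))) (Mv v (ζ (2 * j + 1)))) ^ (k0 * 4 ^ e j))
        = ∑ j ∈ Finset.range n, ((k0 : ℝ) * 4 ^ e j) *
          min (Real.posLog (v (ζ (2 * j)))) (Real.posLog (v (ζ (2 * j + 1)))) := by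
      refine Finset.sum_congr rfl fun j _ => ?_
      rw [Real.log_pow, log_min_Mv]
      push_cast
      ring
    have e4 : ∑ i : σ, Real.log ((B' v * Mv v (ρ i) ^ 2) ^ (α i))
        = ∑ i : σ, (α i : ℝ) *
          (Real.log (B' v) + 2 * Real.log (Mv v (ρ i))) := by
      refine Finset.sum_congr rfl fun i _ => ?_
      rw [Real.log_pow, Real.log_mul hB2.ne' (pow_pos (hM _) _).ne', Real.log_pow]
      push_cast
      ring
    rw [e1, e2, e4] at h1
    linarith
  rw [PS_add f0 f1, PS_log hδ, zero_add, PS_sum _ fun j _ => (hfmin j).const_mul _,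
    PS_add (((g1.add g2).add g3s).add g4) g5s, PS_add ((g1.add g2).add g3s) g4,
    PS_add (g1.add g2) g3s, PS_add g1 g2, PS_sum _ g3, PS_sum _ g5, PS_const_mul,
    PS_const_mul, PS_add (FS_log_Mv _) (FS_log_Mv _), PS_log_Mv, PS_log_Mv] at hmain
  have s1 : ∑ j ∈ Finset.range n, PS (fun v : AbsoluteValue K ℝ => ((k0 : ℝ) * 4 ^ e j) *
      min (Real.posLog (v (ζ (2 * j)))) (Real.posLog (v (ζ (2 * j + 1)))))
      = ∑ j ∈ Finset.range n, ((k0 : ℝ) * 4 ^ e j) *
        PS (fun v : AbsoluteValue K ℝ =>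
          min (Real.posLog (v (ζ (2 * j)))) (Real.posLog (v (ζ (2 * j + 1))))) :=
    Finset.sum_congr rfl fun j _ => PS_const_mul _ _
  have s3 : ∑ h ∈ Finset.range (2 * n), PS (fun v : AbsoluteValue K ℝ =>
      (M : ℝ) * Real.log (max (v (L h)) (v (L' h))) +
        (4 : ℝ) ^ e (h / 2) * Real.log (Mv v (ξ h)))
      = ∑ h ∈ Finset.range (2 * n),
        (M * logHeight₁ (hw h) + (4 : ℝ) ^ e (h / 2) * logHeight₁ (ξ h)) := by
    refine Finset.sum_congr rfl fun h hh => ?_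
    rw [PS_add ((hmax h hh).1.const_mul _) ((FS_log_Mv _).const_mul _), PS_const_mul,
      PS_const_mul, (hmax h hh).2, PS_log_Mv]
  have s5 : ∑ i : σ, PS (fun v : AbsoluteValue K ℝ =>
      (α i : ℝ) * (Real.log (B' v) + 2 * Real.log (Mv v (ρ i))))
      ≤ ∑ i : σ, (α i : ℝ) * ((PS (fun v => Real.log (Bt v)) +
        PS (fun v => Real.log (B' v)) + totalWeight K) + 2 * logHeight₁ (ρ i)) := by
    refine Finset.sum_le_sum fun i _ => ?_
    rw [PS_const_mul, PS_add hB'.fin ((FS_log_Mv _).const_mul _), PS_const_mul, PS_log_Mv]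
    refine mul_le_mul_of_nonneg_left ?_ (Nat.cast_nonneg _)
    linarith
  have hc1 : PS (K := K) (fun v => Real.log (cst v (Real.exp A))) ≤ totalWeight K * A := by
    have h := PS_log_cst (K := K) (Real.one_le_exp hA)
    rwa [Real.log_exp] at h
  rw [s1, s3] at hmain
  have hsq : (0 : ℝ) ≤ ((sq n e : ℕ) : ℝ) := Nat.cast_nonneg _
  have t1 : (totalWeight K : ℝ) * A + ((sq n e : ℕ) : ℝ) * PS (fun v => Real.log (Bt v))
      ≤ (PS (fun v => Real.log (Bt v)) + PS (fun v => Real.log (B' v)) + totalWeight K) *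
        (((sq n e : ℕ) : ℝ) + A) := by
    nlinarith [mul_nonneg hBt0 hA, mul_nonneg hB'0 hsq, mul_nonneg hB'0 hA,
      mul_nonneg htw hsq]
  linarith

end Pool.Agent.Helper46.SG2
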